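import Pool.Agent.Helper22.TW.Stmts

/-!
# Module NOD1: points with large coordinate over `ℂ₂`
-/

set_option autoImplicit false

namespace Pool.Agent.Helper22.TW

section

variable {L : Type*} [NormedField L] [IsUltrametricDist L]

theorem nod1_add_le {x y : L} {r : ℝ} (hx : ‖x‖ ≤ r) (hy : ‖y‖ ≤ r) : ‖x + y‖ ≤ r :=
  (IsUltrametricDist.norm_add_le_max x y).trans (max_le hx hy)

theorem nod1_sub_le {x y : L} {r : ℝ} (hx : ‖x‖ ≤ r) (hy : ‖y‖ ≤ r) : ‖x - y‖ ≤ r := by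
  rw [sub_eq_add_neg]
  exact nod1_add_le hx (by rwa [norm_neg])

theorem nod1_add_eq {x y : L} (h : ‖y‖ < ‖x‖) : ‖x + y‖ = ‖x‖ := by
  rw [IsUltrametricDist.norm_add_eq_max_of_norm_ne_norm h.ne', max_eq_left h.le]

theorem nod1_sub_eq {x y : L} (h : ‖y‖ < ‖x‖) : ‖x - y‖ = ‖x‖ := by
  rw [sub_eq_add_neg]
  exact nod1_add_eq (by rwa [norm_neg])

omit [IsUltrametricDist L] in
theorem nod1_two_mul_le {x : L} {r : ℝ} (h2 : ‖(2 : L)‖ = 1 / 2) (hr : 0 ≤ r) (hx : ‖x‖ ≤ r) :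
    ‖2 * x‖ ≤ r := by
  rw [norm_mul, h2]
  nlinarith [norm_nonneg x]

/-- Doubling. -/
theorem nod1_double {b0 b1 b2 x y x3 : L} {ρ : ℝ} (h2 : ‖(2 : L)‖ = 1 / 2) (h0 : ‖b0‖ ≤ ρ)
    (h1 : ‖b1‖ ≤ ρ) (hb2 : ‖b2‖ ≤ ρ) (hx : ρ < ‖x‖)
    (h : y ^ 2 = (x - b0) * (x - b1) * (x - b2))
    (h3 : x3 = (((x - b0) * (x - b1) + (x - b0) * (x - b2) + (x - b1) * (x - b2)) / (2 * y)) ^ 2 +
        (b0 + b1 + b2) - 2 * x) :
    ‖x3‖ = 4 * ‖x‖ := by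
  have r0 : 0 ≤ ρ := (norm_nonneg b0).trans h0
  have xp : 0 < ‖x‖ := lt_of_le_of_lt r0 hx
  have e0 : ‖x - b0‖ = ‖x‖ := nod1_sub_eq (lt_of_le_of_lt h0 hx)
  have e1 : ‖x - b1‖ = ‖x‖ := nod1_sub_eq (lt_of_le_of_lt h1 hx)
  have e2 : ‖x - b2‖ = ‖x‖ := nod1_sub_eq (lt_of_le_of_lt hb2 hx)
  have hy2 : ‖y‖ ^ 2 = ‖x‖ ^ 3 := by
    rw [← norm_pow, h, norm_mul, norm_mul, e0, e1, e2]
    ring
  have hy : y ≠ 0 := by
    intro hy
    rw [hy, norm_zero] at hy2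
    have : 0 < ‖x‖ ^ 3 := by positivity
    rw [← hy2] at this
    norm_num at this
  have two : (2 : L) ≠ 0 := by
    intro h
    rw [h, norm_zero] at h2
    norm_num at h2
  have key : x3 - b0 = (((x - b0) ^ 2 - (b0 - b1) * (b0 - b2)) / (2 * y)) ^ 2 := by
    rw [h3, div_pow, div_pow]
    have hne : (2 * y) ^ 2 ≠ 0 := pow_ne_zero _ (mul_ne_zero two hy)
    field_simp
    rw [show (2 : L) ^ 2 * y ^ 2 = 4 * y ^ 2 by ring] at *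
    rw [h]
    ring
  have hn : ‖(x - b0) ^ 2 - (b0 - b1) * (b0 - b2)‖ = ‖x‖ ^ 2 := by
    rw [nod1_sub_eq, norm_pow, e0]
    rw [norm_mul, norm_pow, e0]
    have a1 : ‖b0 - b1‖ ≤ ρ := nod1_sub_le h0 h1
    have a2 : ‖b0 - b2‖ ≤ ρ := nod1_sub_le h0 hb2
    calc ‖b0 - b1‖ * ‖b0 - b2‖ ≤ ρ * ρ := mul_le_mul a1 a2 (norm_nonneg _) r0
      _ < ‖x‖ * ‖x‖ := by nlinarith
      _ = ‖x‖ ^ 2 := by ring
  have h4 : ‖x3 - b0‖ = 4 * ‖x‖ := by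
    rw [key, norm_pow, norm_div, hn, norm_mul, h2, div_pow, mul_pow, hy2]
    field_simp
    norm_num
  have h5 : x3 = (x3 - b0) + b0 := by ring
  rw [h5, nod1_add_eq, h4]
  rw [h4]
  linarith

/-- Subtraction. -/
theorem nod1_subtract {b0 b1 b2 x y x' y' x3 : L} {ρ : ℝ} (h2 : ‖(2 : L)‖ = 1 / 2)
    (h0 : ‖b0‖ ≤ ρ) (h1 : ‖b1‖ ≤ ρ) (hb2 : ‖b2‖ ≤ ρ) (hx : ‖x‖ ≤ ρ) (hx' : ρ < ‖x'‖)
    (h : y ^ 2 = (x - b0) * (x - b1) * (x - b2))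
    (h' : y' ^ 2 = (x' - b0) * (x' - b1) * (x' - b2))
    (h3 : x3 = ((y - y') / (x - x')) ^ 2 + (b0 + b1 + b2) - x - x') :
    ‖x3‖ ≤ ρ := by
  have r0 : 0 ≤ ρ := (norm_nonneg b0).trans h0
  have Rp : 0 < ‖x'‖ := lt_of_le_of_lt r0 hx'
  set R := ‖x'‖ with hR
  have e0 : ‖x' - b0‖ = R := nod1_sub_eq (lt_of_le_of_lt h0 hx')
  have e1 : ‖x' - b1‖ = R := nod1_sub_eq (lt_of_le_of_lt h1 hx')
  have e2 : ‖x' - b2‖ = R := nod1_sub_eq (lt_of_le_of_lt hb2 hx')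
  have hy'2 : ‖y'‖ ^ 2 = R ^ 3 := by
    rw [← norm_pow, h', norm_mul, norm_mul, e0, e1, e2]
    ring
  have hy2 : ‖y‖ ^ 2 ≤ ρ ^ 3 := by
    rw [← norm_pow, h, norm_mul, norm_mul]
    have a0 : ‖x - b0‖ ≤ ρ := nod1_sub_le hx h0
    have a1 : ‖x - b1‖ ≤ ρ := nod1_sub_le hx h1
    have a2 : ‖x - b2‖ ≤ ρ := nod1_sub_le hx hb2
    calc ‖x - b0‖ * ‖x - b1‖ * ‖x - b2‖ ≤ ρ * ρ * ρ :=
          mul_le_mul (mul_le_mul a0 a1 (norm_nonneg _) r0) a2 (norm_nonneg _) (by positivity)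
      _ = ρ ^ 3 := by ring
  have d : ‖x - x'‖ = R := by
    rw [← norm_neg, neg_sub]
    exact nod1_sub_eq (lt_of_le_of_lt hx hx')
  have dne : x - x' ≠ 0 := by
    intro h
    rw [h, norm_zero] at d
    linarith
  have key : x3 = ((x * x') * (x + x') + (2 * (-(b0 + b1 + b2))) * (x * x')
      + (b0 * b1 + b0 * b2 + b1 * b2) * (x + x') - 2 * (b0 * b1 * b2) - 2 * (y * y'))
      / (x - x') ^ 2 := by
    rw [h3, div_pow, eq_div_iff (pow_ne_zero 2 dne)]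
    have hc : (y - y') ^ 2 / (x - x') ^ 2 * (x - x') ^ 2 = (y - y') ^ 2 :=
      div_mul_cancel₀ _ (pow_ne_zero 2 dne)
    calc ((y - y') ^ 2 / (x - x') ^ 2 + (b0 + b1 + b2) - x - x') * (x - x') ^ 2
        = (y - y') ^ 2 / (x - x') ^ 2 * (x - x') ^ 2
          + ((b0 + b1 + b2) - x - x') * (x - x') ^ 2 := by ring
      _ = (y - y') ^ 2 + ((b0 + b1 + b2) - x - x') * (x - x') ^ 2 := by rw [hc]
      _ = _ := by linear_combination h + h'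
  have n1 : ‖x + x'‖ ≤ R := nod1_add_le (hx.trans hx'.le) le_rfl
  have n2 : ‖x * x'‖ ≤ ρ * R := by
    rw [norm_mul]
    exact mul_le_mul hx le_rfl (norm_nonneg _) r0
  have n3 : ‖b0 + b1 + b2‖ ≤ ρ := nod1_add_le (nod1_add_le h0 h1) hb2
  have mm : ∀ u v : L, ‖u‖ ≤ ρ → ‖v‖ ≤ ρ → ‖u * v‖ ≤ ρ * ρ := by
    intro u v hu hv
    rw [norm_mul]
    exact mul_le_mul hu hv (norm_nonneg _) r0
  have n4 : ‖b0 * b1 + b0 * b2 + b1 * b2‖ ≤ ρ * ρ :=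
    nod1_add_le (nod1_add_le (mm _ _ h0 h1) (mm _ _ h0 hb2)) (mm _ _ h1 hb2)
  have hρR : ρ ≤ R := hx'.le
  have t1 : ‖(x * x') * (x + x')‖ ≤ ρ * R ^ 2 := by
    rw [norm_mul]
    calc ‖x * x'‖ * ‖x + x'‖ ≤ (ρ * R) * R := mul_le_mul n2 n1 (norm_nonneg _) (by positivity)
      _ = ρ * R ^ 2 := by ring
  have t2 : ‖(2 * (-(b0 + b1 + b2))) * (x * x')‖ ≤ ρ * R ^ 2 := by
    rw [norm_mul]
    have : ‖2 * (-(b0 + b1 + b2))‖ ≤ ρ := nod1_two_mul_le h2 r0 (by rwa [norm_neg])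
    calc ‖2 * (-(b0 + b1 + b2))‖ * ‖x * x'‖ ≤ ρ * (ρ * R) :=
          mul_le_mul this n2 (norm_nonneg _) r0
      _ ≤ ρ * (R * R) := by gcongr
      _ = ρ * R ^ 2 := by ring
  have t3 : ‖(b0 * b1 + b0 * b2 + b1 * b2) * (x + x')‖ ≤ ρ * R ^ 2 := by
    rw [norm_mul]
    calc ‖b0 * b1 + b0 * b2 + b1 * b2‖ * ‖x + x'‖ ≤ (ρ * ρ) * R :=
          mul_le_mul n4 n1 (norm_nonneg _) (by positivity)
      _ ≤ (ρ * R) * R := by gcongr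
      _ = ρ * R ^ 2 := by ring
  have t4 : ‖2 * (b0 * b1 * b2)‖ ≤ ρ * R ^ 2 := by
    have : ‖b0 * b1 * b2‖ ≤ ρ * ρ * ρ := by
      rw [norm_mul]
      exact mul_le_mul (mm _ _ h0 h1) hb2 (norm_nonneg _) (by positivity)
    refine (nod1_two_mul_le h2 (by positivity) this).trans ?_
    calc ρ * ρ * ρ ≤ ρ * R * R := by gcongr
      _ = ρ * R ^ 2 := by ring
  have t5 : ‖2 * (y * y')‖ ≤ ρ * R ^ 2 := by
    apply nod1_two_mul_le h2 (by positivity)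
    rw [norm_mul]
    apply le_of_sq_le_sq _ (by positivity)
    calc (‖y‖ * ‖y'‖) ^ 2 = ‖y‖ ^ 2 * ‖y'‖ ^ 2 := by ring
      _ ≤ ρ ^ 3 * R ^ 3 := by
          rw [hy'2]
          exact mul_le_mul_of_nonneg_right hy2 (by positivity)
      _ = (ρ ^ 2 * R ^ 3) * ρ := by ring
      _ ≤ (ρ ^ 2 * R ^ 3) * R := mul_le_mul_of_nonneg_left hρR (by positivity)
      _ = (ρ * R ^ 2) ^ 2 := by ring
  rw [key, norm_div, norm_pow, d, div_le_iff₀ (by positivity)]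
  exact nod1_sub_le (nod1_sub_le (nod1_add_le (nod1_add_le t1 t2) t3) t4) t5

end

theorem nod1_norm_two : ‖(2 : ℂ_[2])‖ = 1 / 2 := by
  have h := norm_algebraMap' ℂ_[2] (2 : ℚ_[2])
  have h1 : ‖(2 : ℚ_[2])‖ = 1 / 2 := by
    have := Padic.norm_p (p := 2)
    rw [show ((2 : ℕ) : ℚ_[2]) = 2 by norm_num] at this
    rw [this]
    norm_num
  rw [h1, map_ofNat] at h
  exact h

theorem st_NOD1 : ST_NOD1 := by
  intro E b hb ρ hρ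
  refine ⟨?_, ?_⟩
  · intro x y h hx
    have hE : (y : ℂ_[2]) ^ 2 = ((x : ℂ_[2]) - b 0) * ((x : ℂ_[2]) - b 1) * ((x : ℂ_[2]) - b 2) := by
      have := congrArg (fun z : E => (z : ℂ_[2])) h
      simpa using this
    have hy : y ≠ 0 := by
      intro hy
      have r0 : 0 ≤ ρ := (norm_nonneg _).trans (hρ 0)
      have f : ∀ i, (x : ℂ_[2]) - b i ≠ 0 := by
        intro i hi
        have := nod1_sub_eq (lt_of_le_of_lt (hρ i) hx)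
        rw [hi, norm_zero] at this
        linarith
      rw [hy] at hE
      simp only [ZeroMemClass.coe_zero, ne_eq, OfNat.ofNat_ne_zero, not_false_eq_true,
        zero_pow] at hE
      exact mul_ne_zero (mul_ne_zero (f 0) (f 1)) (f 2) hE.symm
    obtain ⟨x3, y3, h3, e1, e2, -⟩ := EE.add_self hb h hy
    refine ⟨x3, y3, h3, e1, ?_⟩
    apply nod1_double (L := ℂ_[2]) (b0 := ((b 0 : E) : ℂ_[2])) (b1 := ((b 1 : E) : ℂ_[2]))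
      (b2 := ((b 2 : E) : ℂ_[2])) (y := (y : ℂ_[2])) nod1_norm_two (hρ 0) (hρ 1) (hρ 2) hx hE
    rw [e2]
    push_cast
    rfl
  · intro x y h x' y' h' hx hx'
    have hE : (y : ℂ_[2]) ^ 2 = ((x : ℂ_[2]) - b 0) * ((x : ℂ_[2]) - b 1) * ((x : ℂ_[2]) - b 2) := by
      have := congrArg (fun z : E => (z : ℂ_[2])) h
      simpa using this
    have hE' : ((-y' : E) : ℂ_[2]) ^ 2
        = ((x' : ℂ_[2]) - b 0) * ((x' : ℂ_[2]) - b 1) * ((x' : ℂ_[2]) - b 2) := by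
      have := congrArg (fun z : E => (z : ℂ_[2])) h'.neg
      simpa using this
    have hne : x ≠ x' := by
      rintro rfl
      linarith
    rw [sub_eq_add_neg, EE.neg_pt hb h']
    obtain ⟨x3, y3, h3, e1, e2, -⟩ := EE.add_of_x_ne hb h h'.neg hne
    refine ⟨x3, y3, h3, e1, ?_⟩
    apply nod1_subtract (L := ℂ_[2]) (b0 := ((b 0 : E) : ℂ_[2])) (b1 := ((b 1 : E) : ℂ_[2]))
      (b2 := ((b 2 : E) : ℂ_[2])) (y := (y : ℂ_[2]))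
      (y' := ((-y' : E) : ℂ_[2])) nod1_norm_two (hρ 0) (hρ 1) (hρ 2) hx hx' hE hE'
    rw [e2]
    push_cast
    rfl

end Pool.Agent.Helper22.TW
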